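import Pool.Agent.helper37.ND.Spec
import Pool.Agent.helper59.FI.Base

/-!
# Theorem ND (MP_baa4d7_al), row GDF: the defect and the value at a unit class
-/

set_option autoImplicit false

namespace Pool.Agent.ND

open Pool.Agent.helper58.DC Pool.Agent.DI Pool.Agent.GR Pool.Agent.OB Pool.Agent.DR Pool.Agent.FI Pool.Agent.FI3 Pool.Agent.FI4 Pool.Agent.FI4I Pool.Agent.LE Pool.Agent.L5 Pool.Agent.NAB

section

variable {p : ℕ} {M : Ideal (integralClosure ℤ ℂ)}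

theorem GDF_mul (hS : Setup p M) {a b : ℂ} (ha : UM M a) (hb : UM M b) : UM M (a * b) :=
  ⟨IntAt.mul hS ha.1 hb.1, fun h => (InM.or hS ha.1 hb.1 h).elim ha.2 hb.2⟩

theorem GDF_ne (hS : Setup p M) {a : ℂ} (ha : UM M a) : a ≠ 0 := fun h => ha.2 (by rw [h]; exact InM.zero hS)

theorem GDF_inv (hS : Setup p M) {a : ℂ} (ha : UM M a) : UM M a⁻¹ := by
  refine ⟨IntAt.inv hS ha.1 ha.2, fun h => ?_⟩
  have h1 := InM.mul_left hS ha.1 h
  rw [mul_inv_cancel₀ (GDF_ne hS ha)] at h1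
  exact InM.not_one hS h1

theorem GDF_fac (hS : Setup p M) (n : ℕ) (hn : n ≠ 0) : ∃ U : ℂ, UM M U ∧ (n : ℂ) = (p : ℂ) ^ ((padicValNat p n : ℕ) : ℤ) * U := by
  haveI : Fact p.Prime := ⟨hS.pr⟩
  obtain ⟨e, n', h1, h2⟩ := Nat.exists_eq_pow_mul_and_not_dvd hn p hS.pr.ne_one
  have hn' : n' ≠ 0 := by
    intro h
    rw [h] at h1
    exact h1 (dvd_zero p)
  have h3 : padicValNat p n = e := by
    rw [h2, padicValNat.mul (pow_ne_zero _ hS.pr.ne_zero) hn', padicValNat.prime_pow, padicValNat.eq_zero_of_not_dvd h1, add_zero]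
  refine ⟨(n' : ℂ), ⟨IntAt.natCast hS n', fun h => h1 ((InM.natCast hS n').1 h)⟩, ?_⟩
  rw [h3, zpow_natCast]
  conv_lhs => rw [h2]
  push_cast
  ring

theorem GDF_pow (hS : Setup p M) {U : ℂ} (hU : UM M U) (k : ℤ) : UM M ((p : ℂ) ^ k * U) ↔ k = 0 := by
  have hp0 : (p : ℂ) ≠ 0 := hS.p_ne
  constructor
  · intro h
    rcases lt_trichotomy k 0 with hk | hk | hk
    · exfalso
      obtain ⟨j, hj⟩ := Int.exists_eq_neg_ofNat hk.le
      have hj0 : j ≠ 0 := by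
        rintro rfl
        rw [hj] at hk
        simp at hk
      have h1 : U = (p : ℂ) ^ j * ((p : ℂ) ^ k * U) := by
        rw [← mul_assoc, hj, zpow_neg, zpow_natCast, mul_inv_cancel₀ (pow_ne_zero _ hp0), one_mul]
      apply hU.2
      rw [h1]
      exact InM.mul_right hS (InM.pow hS (InM.prime_mem hS) hj0) h.1
    · exact hk
    · exfalso
      obtain ⟨j, hj⟩ := Int.eq_ofNat_of_zero_le hk.le
      have hj0 : j ≠ 0 := by
        rintro rfl
        rw [hj] at hk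
        simp at hk
      apply h.2
      rw [hj, zpow_natCast]
      exact InM.mul_right hS (InM.pow hS (InM.prime_mem hS) hj0) hU.1
  · intro h
    rw [h, zpow_zero, one_mul]
    exact hU

end

theorem GDF (hB2 : B2_stmt) (hCLS : CLS_stmt) (hC3 : C3_stmt) : GDF_stmt := by
  intro p e m M hS G _ _ L ψ hψ z x hU hle d
  have hp0 : (p : ℂ) ≠ 0 := hS.p_ne
  obtain ⟨n, hn0, hn, _⟩ := ((hB2 G L).2 ψ hψ).1
  have hCz : Cz L (z * x) = Subgroup.centralizer ({z * x} : Set G) := inf_eq_right.2 hle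
  have hcc := cc_cls hψ (z * x)
  rw [hCz, hn] at hcc
  have hc : UM M (cc ψ (cls L (z * x))) :=
    ⟨IntAt.of_isIntegral hS ((hCLS G L (z * x)).2.2.2.2.2.2.2.2 L le_rfl ψ hψ), hU.ne⟩
  obtain ⟨U1, hU1, e1⟩ := GDF_fac hS (Nat.card (Subgroup.centralizer ({z * x} : Set G))) Nat.card_pos.ne'
  obtain ⟨U2, hU2, e2⟩ := GDF_fac hS n hn0.ne'
  obtain ⟨U3, hU3, e3⟩ := GDF_fac hS (Nat.card L) Nat.card_pos.ne'
  set v : ℤ := ((padicValNat p (Nat.card (Subgroup.centralizer ({z * x} : Set G))) : ℕ) : ℤ) with hv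
  set b : ℤ := ((padicValNat p n : ℕ) : ℤ) with hb
  set a : ℤ := ((padicValNat p (Nat.card L) : ℕ) : ℤ) with ha
  set c : ℂ := cc ψ (cls L (z * x)) with hcd
  have hL0 : (Nat.card L : ℂ) ≠ 0 := by exact_mod_cast Nat.card_pos.ne'
  have hn0' : (n : ℂ) ≠ 0 := by exact_mod_cast hn0.ne'
  have hU20 : U2 ≠ 0 := GDF_ne hS hU2
  have hU30 : U3 ≠ 0 := GDF_ne hS hU3
  have hval : (p : ℂ) ^ (d - v) * ψ (z * x) = (p : ℂ) ^ (d + b - a) * (U1 * c * U2 * U3⁻¹) := by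
    have h1 : ψ (z * x) = (Nat.card (Subgroup.centralizer ({z * x} : Set G)) : ℂ) * c * n / Nat.card L := by
      rw [hcc]
      field_simp
    rw [h1, e1, e2, e3]
    rw [zpow_sub₀ hp0, zpow_sub₀ hp0, zpow_add₀ hp0]
    have g1 : (p : ℂ) ^ v ≠ 0 := zpow_ne_zero _ hp0
    have g2 : (p : ℂ) ^ a ≠ 0 := zpow_ne_zero _ hp0
    field_simp
  have hUU : UM M (U1 * c * U2 * U3⁻¹) := GDF_mul hS (GDF_mul hS (GDF_mul hS hU1 hc) hU2) (GDF_inv hS hU3)
  rw [hval, GDF_pow hS hUU]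
  unfold Defect
  constructor
  · rintro ⟨n', h1, h2⟩
    rw [hn] at h1
    have h3 : n = n' := by exact_mod_cast h1
    rw [← h3] at h2
    rw [h2]
    ring
  · intro h
    refine ⟨n, hn, ?_⟩
    change d = a - b
    linarith

end Pool.Agent.ND
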